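import Pool.Agent.V5helper50.SP.Stm
import Pool.Agent.V5helper16.MT.MTM

/-!
# Project SP, job MTL: lower bound for the main term
-/

set_option autoImplicit false

open Finset MeasureTheory

namespace Pool.Agent.V5helper40.SP

open Pool.Agent.V5helper51.MT (e g a G cube φ)
open Pool.Agent.V5helper16.MT (phi_nonneg phi_ge phi_cont G_cont)

/-- the Lipschitz bound with the sharp leading term -/
theorem G_lip' (k q ρ : ℕ) (hk : 2 ≤ k) (hq : 1 ≤ q) (α : Fin (k - 1) → ℝ) : ∃ S : ℝ, 1 ≤ S ∧ ∀ s : ℝ, S ≤ s →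
    ∀ u v : ℝ, 0 ≤ u → q * u ≤ s → 0 ≤ v → q * v ≤ s →
      |G k q ρ α u - G k q ρ α v| ≤ 6 / 5 * k * s ^ (k - 1) * |u - v| := by
  have hq1 : (1 : ℝ) ≤ q := by exact_mod_cast hq
  have hρ0 : (0 : ℝ) ≤ ρ := Nat.cast_nonneg _
  have hk2 : (2 : ℝ) ≤ k := by exact_mod_cast hk
  have hk0 : (0 : ℝ) < k := by linarith
  -- the leading term
  have h1 : Filter.Tendsto (fun s : ℝ => (1 + (ρ : ℝ) / s) ^ (k - 1)) Filter.atTop (nhds ((1 + 0) ^ (k - 1))) :=
    (tendsto_const_nhds.add (tendsto_const_nhds.div_atTop Filter.tendsto_id)).pow (k - 1)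
  rw [add_zero, one_pow] at h1
  have h2 : ∀ᶠ s : ℝ in Filter.atTop, (1 + (ρ : ℝ) / s) ^ (k - 1) < 11 / 10 :=
    h1.eventually (gt_mem_nhds (by norm_num))
  obtain ⟨S₁, hS₁⟩ := Filter.eventually_atTop.1 h2
  obtain ⟨A, hA⟩ : ∃ A : ℝ, A = ∑ j : Fin (k - 1), |α j| * (q * (((j : ℕ) + 1 : ℕ) : ℝ) * 2 ^ (k - 2)) := ⟨_, rfl⟩
  have hA0 : 0 ≤ A := by rw [hA]; exact sum_nonneg fun j _ => by positivity
  refine ⟨max (max 1 S₁) (max ρ (10 * A)), le_trans (le_max_left _ _) (le_max_left _ _), ?_⟩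
  intro s hs u v hu hus hv hvs
  have hs1 : 1 ≤ s := le_trans (le_trans (le_max_left _ _) (le_max_left _ _)) hs
  have hs2 : S₁ ≤ s := le_trans (le_trans (le_max_right _ _) (le_max_left _ _)) hs
  have hs3 : (ρ : ℝ) ≤ s := le_trans (le_trans (le_max_left _ _) (le_max_right _ _)) hs
  have hs4 : 10 * A ≤ s := le_trans (le_trans (le_max_right _ _) (le_max_right _ _)) hs
  have hs0 : 0 < s := by linarith
  have bd : ∀ t : ℝ, 0 ≤ t → q * t ≤ s → |q * t + ρ| ≤ s + ρ := by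
    intro t ht htX
    rw [abs_of_nonneg (by positivity)]
    linarith
  have hm : max |q * u + ρ| |q * v + ρ| ≤ s + ρ := max_le (bd u hu hus) (bd v hv hvs)
  have hm0 : 0 ≤ max |q * u + (ρ : ℝ)| |q * v + ρ| := le_max_of_le_left (abs_nonneg _)
  have hd : |(q * u + ρ) - (q * v + (ρ : ℝ))| = q * |u - v| := by
    rw [show (q * u + ρ) - (q * v + (ρ : ℝ)) = q * (u - v) by ring, abs_mul, abs_of_nonneg (by positivity)]
  have hp : ∀ n : ℕ, |(q * u + ρ) ^ n - (q * v + (ρ : ℝ)) ^ n| ≤ q * |u - v| * n * (s + ρ) ^ (n - 1) := by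
    intro n
    refine (abs_pow_sub_pow_le _ _ n).trans ?_
    rw [hd]
    exact mul_le_mul_of_nonneg_left (pow_le_pow_left₀ hm0 hm _) (by positivity)
  have e1 : G k q ρ α u - G k q ρ α v = ((q * u + ρ) ^ k - (q * v + (ρ : ℝ)) ^ k) / q +
      ∑ j : Fin (k - 1), α j * ((q * u + ρ) ^ ((j : ℕ) + 1) - (q * v + (ρ : ℝ)) ^ ((j : ℕ) + 1)) := by
    have h3 : ∑ j : Fin (k - 1), α j * ((q * u + ρ) ^ ((j : ℕ) + 1) - (q * v + (ρ : ℝ)) ^ ((j : ℕ) + 1)) =
        g k α (q * u + ρ) - g k α (q * v + ρ) := by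
      unfold g
      rw [← sum_sub_distrib]
      exact sum_congr rfl fun j _ => by ring
    rw [h3]
    unfold G
    ring
  rw [e1]
  refine (abs_add_le _ _).trans ?_
  have hlead : (s + ρ) ^ (k - 1) ≤ 11 / 10 * s ^ (k - 1) := by
    have h3 := (hS₁ s hs2).le
    have h4 : s + ρ = (1 + (ρ : ℝ) / s) * s := by field_simp
    rw [h4, mul_pow]
    exact mul_le_mul_of_nonneg_right h3 (by positivity)
  have e2 : |((q * u + ρ) ^ k - (q * v + (ρ : ℝ)) ^ k) / q| ≤ 11 / 10 * k * s ^ (k - 1) * |u - v| := by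
    rw [abs_div, abs_of_nonneg (by positivity : (0 : ℝ) ≤ q), div_le_iff₀ (by linarith)]
    refine (hp k).trans ?_
    have h5 : (q : ℝ) * |u - v| * k * (s + ρ) ^ (k - 1) ≤ q * |u - v| * k * (11 / 10 * s ^ (k - 1)) :=
      mul_le_mul_of_nonneg_left hlead (by positivity)
    refine h5.trans (le_of_eq ?_)
    ring
  have e3 : |∑ j : Fin (k - 1), α j * ((q * u + ρ) ^ ((j : ℕ) + 1) - (q * v + (ρ : ℝ)) ^ ((j : ℕ) + 1))| ≤
      A * s ^ (k - 2) * |u - v| := by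
    refine (abs_sum_le_sum_abs _ _).trans ?_
    rw [hA, sum_mul, sum_mul]
    refine sum_le_sum fun j _ => ?_
    rw [abs_mul]
    have h4 := hp ((j : ℕ) + 1)
    have hj : (j : ℕ) < k - 1 := j.2
    have h6 : (s + ρ) ^ ((j : ℕ) + 1 - 1) ≤ 2 ^ (k - 2) * s ^ (k - 2) := by
      rw [← mul_pow]
      calc (s + ρ) ^ ((j : ℕ) + 1 - 1) ≤ (2 * s) ^ ((j : ℕ) + 1 - 1) :=
            pow_le_pow_left₀ (by positivity) (by linarith) _
        _ ≤ (2 * s) ^ (k - 2) := pow_le_pow_right₀ (by linarith) (by omega)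
    calc |α j| * |(q * u + ρ) ^ ((j : ℕ) + 1) - (q * v + (ρ : ℝ)) ^ ((j : ℕ) + 1)| ≤
          |α j| * (q * |u - v| * (((j : ℕ) + 1 : ℕ) : ℝ) * (2 ^ (k - 2) * s ^ (k - 2))) :=
          mul_le_mul_of_nonneg_left (h4.trans (mul_le_mul_of_nonneg_left h6 (by positivity))) (abs_nonneg _)
      _ = _ := by ring
  have e4 : A * s ^ (k - 2) * |u - v| ≤ 1 / 10 * k * s ^ (k - 1) * |u - v| := by
    refine mul_le_mul_of_nonneg_right ?_ (abs_nonneg _)
    have h7 : s ^ (k - 1) = s ^ (k - 2) * s := by rw [← pow_succ]; congr 1; omega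
    rw [h7]
    have h8 : A ≤ 1 / 10 * k * s := by nlinarith
    calc A * s ^ (k - 2) ≤ 1 / 10 * k * s * s ^ (k - 2) := mul_le_mul_of_nonneg_right h8 (by positivity)
      _ = _ := by ring
  calc _ ≤ _ := add_le_add e2 (e3.trans e4)
    _ = _ := by ring

/-- the growth -/
theorem G_large (k q ρ : ℕ) (hk : 2 ≤ k) (hq : 1 ≤ q) (α : Fin (k - 1) → ℝ) : ∃ S : ℝ, 1 ≤ S ∧ ∀ s : ℝ, S ≤ s →
    4 / 5 * s ^ k / q + 1 / 2 ≤ G k q ρ α (s / q) := by
  have hq1 : (1 : ℝ) ≤ q := by exact_mod_cast hq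
  have hq0 : (0 : ℝ) < q := by linarith
  have hρ0 : (0 : ℝ) ≤ ρ := Nat.cast_nonneg _
  obtain ⟨A, hA⟩ : ∃ A : ℝ, A = ∑ j : Fin (k - 1), |α j| * 2 ^ (k - 1) := ⟨_, rfl⟩
  have hA0 : 0 ≤ A := by rw [hA]; exact sum_nonneg fun j _ => by positivity
  refine ⟨max (max 1 ρ) (5 * q * ((ρ : ℝ) ^ k + 1 + A)), le_trans (le_max_left _ _) (le_max_left _ _), ?_⟩
  intro s hs
  have hs1 : 1 ≤ s := le_trans (le_trans (le_max_left _ _) (le_max_left _ _)) hs
  have hs2 : (ρ : ℝ) ≤ s := le_trans (le_trans (le_max_right _ _) (le_max_left _ _)) hs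
  have hs3 : 5 * q * ((ρ : ℝ) ^ k + 1 + A) ≤ s := le_trans (le_max_right _ _) hs
  have hs0 : 0 < s := by linarith
  have hqs : (q : ℝ) * (s / q) = s := by field_simp
  have h3 : -(A * s ^ (k - 1)) ≤ g k α (q * (s / q) + ρ) := by
    rw [hqs]
    refine (abs_le.1 ?_).1
    unfold g
    refine (abs_sum_le_sum_abs _ _).trans ?_
    rw [hA, sum_mul]
    refine sum_le_sum fun j _ => ?_
    have hj : (j : ℕ) < k - 1 := j.2
    rw [abs_mul, abs_pow, abs_of_nonneg (by positivity : (0 : ℝ) ≤ s + ρ), mul_assoc, ← mul_pow]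
    refine mul_le_mul_of_nonneg_left ?_ (abs_nonneg _)
    calc (s + ρ) ^ ((j : ℕ) + 1) ≤ (2 * s) ^ ((j : ℕ) + 1) := pow_le_pow_left₀ (by positivity) (by linarith) _
      _ ≤ (2 * s) ^ (k - 1) := pow_le_pow_right₀ (by linarith) (by omega)
  have h4 : G k q ρ α (s / q) = ((q * (s / q) + ρ) ^ k - (ρ : ℝ) ^ k) / q + g k α (q * (s / q) + ρ) := rfl
  have h5 : s ^ k / q - (ρ : ℝ) ^ k ≤ ((q * (s / q) + ρ) ^ k - (ρ : ℝ) ^ k) / q := by
    rw [hqs]
    have h6 : s ^ k ≤ (s + ρ) ^ k := pow_le_pow_left₀ (by positivity) (by linarith) k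
    have h7 : (ρ : ℝ) ^ k / q ≤ (ρ : ℝ) ^ k := div_le_self (by positivity) hq1
    have h8 : s ^ k / q ≤ (s + ρ) ^ k / q := div_le_div_of_nonneg_right h6 hq0.le
    rw [sub_div]
    linarith
  have h6 : s ^ k = s ^ (k - 1) * s := by rw [← pow_succ]; congr 1; omega
  have h7 : (1 : ℝ) ≤ s ^ (k - 1) := one_le_pow₀ hs1
  have h8 : ((ρ : ℝ) ^ k + 1 + A) * s ^ (k - 1) ≤ 1 / 5 * s ^ k / q := by
    rw [le_div_iff₀ hq0, h6]
    have h9 : 0 ≤ s ^ (k - 1) := by positivity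
    nlinarith
  have h9 : (ρ : ℝ) ^ k + 1 ≤ ((ρ : ℝ) ^ k + 1) * s ^ (k - 1) := le_mul_of_one_le_right (by positivity) h7
  rw [h4]
  have h10 : 4 / 5 * s ^ k / q = s ^ k / q - 1 / 5 * s ^ k / q := by ring
  rw [h10]
  nlinarith

theorem t_MTL : Pool.Agent.V5helper50.SP.S_MTL := by
  intro k q ρ hk hq α
  obtain ⟨S₁, hS₁, hlip⟩ := G_lip' k q ρ hk hq α
  obtain ⟨S₂, hS₂, hlarge⟩ := G_large k q ρ hk hq α
  have hq1 : (1 : ℝ) ≤ q := by exact_mod_cast hq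
  have hq0 : (0 : ℝ) < q := by linarith
  have hk2 : (2 : ℝ) ≤ k := by exact_mod_cast hk
  have hk0 : (0 : ℝ) < k := by linarith
  obtain ⟨S, hS⟩ : ∃ S : ℝ, S = max (max S₁ S₂) (max q 1) := ⟨_, rfl⟩
  have hSS₁ : S₁ ≤ S := by rw [hS]; exact le_trans (le_max_left _ _) (le_max_left _ _)
  have hSS₂ : S₂ ≤ S := by rw [hS]; exact le_trans (le_max_right _ _) (le_max_left _ _)
  have hSq : (q : ℝ) ≤ S := by rw [hS]; exact le_trans (le_max_left _ _) (le_max_right _ _)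
  have hS1 : (1 : ℝ) ≤ S := by rw [hS]; exact le_trans (le_max_right _ _) (le_max_right _ _)
  obtain ⟨X₁, hX₁⟩ := exists_nat_ge (S ^ k + |g k α ρ| + 1)
  have hg0 := abs_nonneg (g k α ρ)
  have hSk : 0 ≤ S ^ k := by positivity
  refine ⟨X₁, by exact_mod_cast (by linarith : (1 : ℝ) ≤ X₁), ?_⟩
  intro X hX w hw1 hw2
  have hw0 : 0 < w := by linarith
  have hy0 : 0 ≤ 5 / 4 * (q * w) := by positivity
  obtain ⟨s, hs⟩ : ∃ s : ℝ, s = (5 / 4 * (q * w)) ^ ((k : ℝ)⁻¹) := ⟨_, rfl⟩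
  have hs0 : 0 ≤ s := by rw [hs]; exact Real.rpow_nonneg hy0 _
  have hsk : s ^ k = 5 / 4 * (q * w) := by
    rw [hs]
    exact Real.rpow_inv_natCast_pow hy0 (by omega)
  have hSs : S ≤ s := by
    by_contra hlt
    push Not at hlt
    have h1 : s ^ k ≤ S ^ k := pow_le_pow_left₀ hs0 hlt.le k
    rw [hsk] at h1
    nlinarith
  have hs1 : 1 ≤ s := hS1.trans hSs
  have hsX : s ≤ q * X := by
    by_contra hlt
    push Not at hlt
    have h1 : ((q : ℝ) * X) ^ k ≤ s ^ k := pow_le_pow_left₀ (by positivity) hlt.le k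
    rw [hsk] at h1
    rw [le_div_iff₀ (by positivity)] at hw2
    have h2 : 0 < (q : ℝ) * w := by positivity
    nlinarith
  have hpow : s ^ (k - 1) ≤ 5 / 4 * (q * w) ^ (((k : ℝ) - 1) / k) := by
    have h1 : s ^ (k - 1) = (5 / 4 * (q * w)) ^ (((k : ℝ) - 1) / k) := by
      rw [hs, ← Real.rpow_natCast, ← Real.rpow_mul hy0]
      congr 1
      rw [Nat.cast_sub (by omega)]
      push_cast
      field_simp
    rw [h1, Real.mul_rpow (by norm_num) (by positivity)]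
    refine mul_le_mul_of_nonneg_right ?_ (by positivity)
    calc (5 / 4 : ℝ) ^ (((k : ℝ) - 1) / k) ≤ (5 / 4 : ℝ) ^ (1 : ℝ) :=
          Real.rpow_le_rpow_of_exponent_le (by norm_num) (by
            rw [div_le_one hk0]
            linarith)
      _ = 5 / 4 := Real.rpow_one _
  -- the ends
  have hG0 : G k q ρ α 0 ≤ w + 1 / 2 := by
    have h1 : G k q ρ α 0 = g k α ρ := by
      unfold G
      simp
    rw [h1]
    have h2 := le_abs_self (g k α ρ)
    linarith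
  have hG1 : w + 1 / 2 ≤ G k q ρ α (s / q) := by
    have h1 := hlarge s (hSS₂.trans hSs)
    rw [hsk] at h1
    have h2 : 4 / 5 * (5 / 4 * (q * w)) / q = w := by field_simp
    rw [h2] at h1
    exact h1
  have ht0 : 0 ≤ s / q := by positivity
  have htX : s / q ≤ X := by
    rw [div_le_iff₀ hq0]
    linarith
  have ht1 : 1 ≤ s / q := by
    rw [le_div_iff₀ hq0]
    linarith
  obtain ⟨u, ⟨hu0, huX⟩, hu⟩ := intermediate_value_Icc ht0
    (G_cont k q ρ α).continuousOn ⟨hG0, hG1⟩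
  obtain ⟨L, hL⟩ : ∃ L : ℝ, L = 6 / 5 * k * s ^ (k - 1) := ⟨_, rfl⟩
  have hsk1 : (1 : ℝ) ≤ s ^ (k - 1) := one_le_pow₀ hs1
  have hL1 : 1 ≤ L := by rw [hL]; nlinarith
  have hL0 : 0 < L := by linarith
  obtain ⟨δ, hδ⟩ : ∃ δ : ℝ, δ = 1 / (4 * L) := ⟨_, rfl⟩
  have hδ0 : 0 < δ := by rw [hδ]; positivity
  have hδ1 : 2 * δ ≤ s / q := by
    have h1 : 2 * δ ≤ 1 := by
      rw [hδ, mul_one_div, div_le_one (by positivity)]
      linarith
    linarith
  have hδ2 : L * δ = 1 / 4 := by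
    rw [hδ]
    field_simp
  obtain ⟨a, ha0, haX, ha⟩ : ∃ a : ℝ, 0 ≤ a ∧ a + δ ≤ s / q ∧ ∀ t, a ≤ t → t ≤ a + δ → |t - u| ≤ δ := by
    by_cases h1 : δ ≤ u
    · exact ⟨u - δ, by linarith, by linarith, fun t h2 h3 => abs_le.2 ⟨by linarith, by linarith⟩⟩
    · exact ⟨u, hu0, by linarith, fun t h2 h3 => abs_le.2 ⟨by linarith, by linarith⟩⟩
  have hcont : Continuous fun u : ℝ => φ (G k q ρ α u - w) := phi_cont.comp ((G_cont k q ρ α).sub continuous_const)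
  have hmono : ∫ t in a..(a + δ), φ (G k q ρ α t - w) ≤ ∫ t in (0 : ℝ)..X, φ (G k q ρ α t - w) :=
    intervalIntegral.integral_mono_interval ha0 (by linarith) (haX.trans htX)
      (Filter.Eventually.of_forall fun t => phi_nonneg _) (hcont.intervalIntegrable _ _)
  have hqt : ∀ t : ℝ, t ≤ s / q → q * t ≤ s := by
    intro t ht
    rw [le_div_iff₀ hq0] at ht
    linarith
  have hlow : δ * (1 / 2) ≤ ∫ t in a..(a + δ), φ (G k q ρ α t - w) := by
    have h1 : ∫ _ in a..(a + δ), (1 / 2 : ℝ) = δ * (1 / 2) := by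
      rw [intervalIntegral.integral_const, smul_eq_mul]
      ring
    rw [← h1]
    refine intervalIntegral.integral_mono_on (by linarith) (continuous_const.intervalIntegrable _ _)
      (hcont.intervalIntegrable _ _) fun t ht => phi_ge ?_
    have h2 := hlip s (hSS₁.trans hSs) t u (ha0.trans ht.1) (hqt t (ht.2.trans haX)) hu0 (hqt u huX)
    have h3 := ha t ht.1 ht.2
    have h4 : G k q ρ α t - w - 1 / 2 = G k q ρ α t - G k q ρ α u := by rw [hu]; ring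
    rw [h4, ← hδ2]
    rw [← hL] at h2
    exact h2.trans (mul_le_mul_of_nonneg_left h3 hL0.le)
  refine le_trans ?_ (hlow.trans hmono)
  have hqw : 0 < (q * w) ^ (((k : ℝ) - 1) / k) := Real.rpow_pos_of_pos (by positivity) _
  rw [hδ, one_div_mul_one_div]
  refine one_div_le_one_div_of_le (by positivity) ?_
  rw [hL]
  nlinarith

end Pool.Agent.V5helper40.SP
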